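import Mathlib

set_option autoImplicit false

/-!
# The inequality for one body

`h` is the support function (in terms of angles) of a body of constant width one, relative to a
boundary point with inner unit normal of angle `0`.
-/

namespace Pool.Agent.W5h2.Kiss

open Real

/-- Properties of the support function of a plane body of constant width one which contains the
origin and whose lowest point in the direction of angle `0` is the origin. -/
structure Supp (h : ℝ → ℝ) : Prop where
  /-- sublinearity -/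
  conv : ∀ s t r, s ≤ t → t ≤ r → r ≤ s + π → sin (r - s) * h t ≤ sin (r - t) * h s + sin (t - s) * h r
  /-- constant width one -/
  width : ∀ t, h t + h (t + π) = 1
  /-- contains the origin -/
  nonneg : ∀ t, 0 ≤ h t
  /-- the origin is the lowest point -/
  zero : h π = 0
  /-- contains the point opposite to the origin -/
  cos_le : ∀ t, cos t ≤ h t

namespace Supp

variable {h : ℝ → ℝ} (H : Supp h)
include H

lemma le_one (t : ℝ) : h t ≤ 1 := by
  have h1 := H.width t
  have h2 := H.nonneg (t + π)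
  linarith

lemma per (t : ℝ) : h (t + 2 * π) = h t := by
  have h1 := H.width t
  have h2 := H.width (t + π)
  rw [show t + π + π = t + 2 * π by ring] at h2
  linarith

lemma le_one_add_cos (t : ℝ) : h t ≤ 1 + cos t := by
  have h1 := H.width t
  have h2 := H.cos_le (t + π)
  rw [cos_add_pi] at h2
  linarith

lemma opp (t : ℝ) : h (t + π) = 1 - h t := by
  have h1 := H.width t
  linarith

lemma opp' (t : ℝ) : h (t - π) = 1 - h t := by
  have h1 := H.width (t - π)
  rw [sub_add_cancel] at h1
  linarith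

/-- Positivity in the directions orthogonal to the normal. -/
lemma pos_left : 0 < h (π / 2) := by
  have h1 := H.conv (4 * π / 3) (3 * π / 2) (5 * π / 3) (by linarith [pi_pos]) (by linarith [pi_pos])
    (by linarith [pi_pos])
  rw [show 5 * π / 3 - 4 * π / 3 = π / 3 by ring, show 5 * π / 3 - 3 * π / 2 = π / 6 by ring,
    show 3 * π / 2 - 4 * π / 3 = π / 6 by ring, sin_pi_div_three, sin_pi_div_six] at h1
  have h2 := H.le_one_add_cos (4 * π / 3)
  rw [show 4 * π / 3 = π / 3 + π by ring, cos_add_pi, cos_pi_div_three] at h2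
  rw [show 4 * π / 3 = π / 3 + π by ring] at h1
  have h3 := H.le_one (5 * π / 3)
  have h4 := H.width (π / 2)
  rw [show π / 2 + π = 3 * π / 2 by ring] at h4
  have h5 : (1.73 : ℝ) < √3 := by
    rw [Real.lt_sqrt (by norm_num)]; norm_num
  have h6 : √3 * h (3 * π / 2) ≤ 3 / 2 := by linarith
  by_contra hcon
  push Not at hcon
  have h7 : 1 ≤ h (3 * π / 2) := by linarith
  nlinarith

lemma pos_right : 0 < h (3 * π / 2) := by
  have h1 := H.conv (π / 3) (π / 2) (2 * π / 3) (by linarith [pi_pos]) (by linarith [pi_pos])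
    (by linarith [pi_pos])
  rw [show 2 * π / 3 - π / 3 = π / 3 by ring, show 2 * π / 3 - π / 2 = π / 6 by ring,
    show π / 2 - π / 3 = π / 6 by ring, sin_pi_div_three, sin_pi_div_six] at h1
  have h2 := H.le_one_add_cos (2 * π / 3)
  rw [show 2 * π / 3 = π - π / 3 by ring, cos_pi_sub, cos_pi_div_three] at h2
  rw [show 2 * π / 3 = π - π / 3 by ring] at h1
  have h3 := H.le_one (π / 3)
  have h4 := H.width (π / 2)
  rw [show π / 2 + π = 3 * π / 2 by ring] at h4
  have h5 : (1.73 : ℝ) < √3 := by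
    rw [Real.lt_sqrt (by norm_num)]; norm_num
  have h6 : √3 * h (π / 2) ≤ 3 / 2 := by linarith
  by_contra hcon
  push Not at hcon
  have h7 : 1 ≤ h (π / 2) := by linarith
  nlinarith

/-- The main estimate, attained by Reuleaux triangles. -/
lemma gbound (m d : ℝ) (h1 : π / 6 ≤ d) (h2 : d ≤ π / 2) :
    2 - 2 * cos (d - π / 6) ≤ h (m + d) + h (m - d) := by
  have a1 := H.conv (m + π / 6 + π) (m + d + π) (m + π / 2 + π) (by linarith) (by linarith)
    (by linarith [pi_pos])
  have a2 := H.conv (m - π / 2 + π) (m - d + π) (m - π / 6 + π) (by linarith) (by linarith)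
    (by linarith [pi_pos])
  rw [show m + π / 2 + π - (m + π / 6 + π) = π / 3 by ring,
    show m + π / 2 + π - (m + d + π) = π / 2 - d by ring,
    show m + d + π - (m + π / 6 + π) = d - π / 6 by ring, H.opp, H.opp, H.opp,
    sin_pi_div_two_sub, sin_pi_div_three] at a1
  rw [show m - π / 6 + π - (m - π / 2 + π) = π / 3 by ring,
    show m - π / 6 + π - (m - d + π) = d - π / 6 by ring,
    show m - d + π - (m - π / 2 + π) = π / 2 - d by ring, H.opp, H.opp, H.opp,
    sin_pi_div_two_sub, sin_pi_div_three] at a2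
  have a3 := H.width (m - π / 2)
  rw [show m - π / 2 + π = m + π / 2 by ring] at a3
  have a4 := H.nonneg (m + π / 6)
  have a5 := H.nonneg (m - π / 6)
  have hc : 0 ≤ cos d := cos_nonneg_of_neg_pi_div_two_le_of_le (by linarith [pi_pos]) h2
  have e1 : sin (d - π / 6) = sin d * (√3 / 2) - cos d * (1 / 2) := by
    rw [sin_sub, cos_pi_div_six, sin_pi_div_six]
  have e2 : cos (d - π / 6) = cos d * (√3 / 2) + sin d * (1 / 2) := by
    rw [cos_sub, cos_pi_div_six, sin_pi_div_six]
  have a6 : sin (d - π / 6) * (1 - h (m + π / 2)) + sin (d - π / 6) * (1 - h (m - π / 2))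
      = sin (d - π / 6) := by
    rw [← mul_add]
    have : 1 - h (m + π / 2) + (1 - h (m - π / 2)) = 1 := by linarith
    rw [this, mul_one]
  have a7 : cos d * (1 - h (m + π / 6)) ≤ cos d := by nlinarith
  have a8 : cos d * (1 - h (m - π / 6)) ≤ cos d := by nlinarith
  have a9 : √3 / 2 * (2 - (h (m + d) + h (m - d))) ≤ 2 * cos d + sin (d - π / 6) := by
    linarith
  have s3 : (0 : ℝ) < √3 := by positivity
  have s33 : √3 * √3 = 3 := Real.mul_self_sqrt (by norm_num)
  rw [e1] at a9
  rw [e2]
  by_contra hcon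
  push Not at hcon
  have b1 : √3 / 2 * (2 * (cos d * (√3 / 2) + sin d * (1 / 2)))
      < √3 / 2 * (2 - (h (m + d) + h (m - d))) := by
    apply mul_lt_mul_of_pos_left _ (by positivity)
    linarith
  have b2 : √3 / 2 * (2 * (cos d * (√3 / 2) + sin d * (1 / 2)))
      = √3 * √3 / 2 * cos d + √3 / 2 * sin d := by ring
  rw [b2, s33] at b1
  linarith

end Supp

/-! ### Elementary inequalities -/

lemma sqrt3_lo : (1.732 : ℝ) < √3 := by
  rw [Real.lt_sqrt (by norm_num)]; norm_num

lemma sqrt3_hi : √3 < (1.7321 : ℝ) := by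
  rw [Real.sqrt_lt' (by norm_num)]; norm_num

/-- `2 cos s + s ≤ √3 + π / 6` on `[0, π / 3]` -/
lemma two_cos_add_le {s : ℝ} (h1 : 0 ≤ s) (h2 : s ≤ π / 3) : 2 * cos s + s ≤ √3 + π / 6 := by
  set r := s - π / 6 with hr
  have hs : s = r + π / 6 := by ring
  have e : 2 * cos s = √3 * cos r - sin r := by
    rw [hs, cos_add, cos_pi_div_six, sin_pi_div_six]; ring
  have hcos := cos_le_one_sub_mul_cos_sq (x := r)
    (by rw [abs_le]; constructor <;> linarith [pi_pos])
  have hpi : π < 3.15 := pi_lt_d2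
  have hpi3 : 3 < π := pi_gt_three
  have s3 := sqrt3_lo
  have key : r - sin r ≤ √3 * (1 - cos r) := by
    rcases le_or_gt r 0 with h | h
    · have : r - sin r ≤ 0 := by
        have := sin_le (x := -r) (by linarith)
        rw [sin_neg] at this
        linarith
      have : 0 ≤ √3 * (1 - cos r) := mul_nonneg (by positivity) (by linarith [cos_le_one r])
      linarith
    · have hr1 : r ≤ π / 6 := by linarith
      have hr2 : r ≤ 1 := by linarith
      have h3 := sin_gt_sub_cube h
      have h4 : 2 / π ^ 2 * r ^ 2 ≤ 1 - cos r := by linarith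
      have h5 : (0.2 : ℝ) ≤ 2 / π ^ 2 := by
        rw [le_div_iff₀ (by positivity)]
        nlinarith
      have h6 : 0.2 * r ^ 2 ≤ 1 - cos r := by
        have : 0.2 * r ^ 2 ≤ 2 / π ^ 2 * r ^ 2 := mul_le_mul_of_nonneg_right h5 (by positivity)
        linarith
      have h7 : r ^ 3 / 6 ≤ 1.732 * (0.2 * r ^ 2) := by nlinarith [mul_nonneg (sq_nonneg r) (by linarith : 0 ≤ 1 - r)]
      have h8 : 1.732 * (0.2 * r ^ 2) ≤ √3 * (1 - cos r) := by
        apply mul_le_mul s3.le h6 (by positivity) (by positivity)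
      linarith
  rw [e, hs]
  linarith

/-- `cos x (√3 / 2 + x / 2) ≤ 1` -/
lemma inv_cos_ge {x : ℝ} (h1 : 0 ≤ x) (h2 : x < π / 2) : √3 / 2 + x / 2 ≤ 1 / cos x := by
  have hc : 0 < cos x := cos_pos_of_mem_Ioo ⟨by linarith [pi_pos], h2⟩
  have h3 := cos_le_one_div_sqrt_sq_add_one (x := x) (by linarith [pi_pos]) (by linarith [pi_pos])
  have h4 : √3 / 2 + x / 2 ≤ √(x ^ 2 + 1) := by
    apply Real.le_sqrt_of_sq_le
    have s33 : √3 * √3 = 3 := Real.mul_self_sqrt (by norm_num)
    nlinarith [sq_nonneg (√3 * x - 1)]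
  have h5 : √(x ^ 2 + 1) ≤ 1 / cos x := by
    rw [le_div_iff₀ hc]
    have hs : 0 < √(x ^ 2 + 1) := by positivity
    rw [le_div_iff₀ hs] at h3
    linarith
  linarith

/-- `(1 - sin x) (1 / cos x - 1) ≤ x / 2` -/
lemma aux_sin_cos {x : ℝ} (h1 : 0 ≤ x) (h2 : x < π / 2) :
    (1 - sin x) * (1 / cos x - 1) ≤ x / 2 := by
  have hc : 0 < cos x := cos_pos_of_mem_Ioo ⟨by linarith [pi_pos], h2⟩
  have hs : 0 ≤ sin x := sin_nonneg_of_nonneg_of_le_pi h1 (by linarith [pi_pos])
  have hc1 := cos_le_one x
  have hsc : sin x ^ 2 + cos x ^ 2 = 1 := sin_sq_add_cos_sq x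
  have e : (1 - sin x) * (1 / cos x - 1) = cos x * (1 - cos x) / (1 + sin x) := by
    have h3 : (1 + sin x) ≠ 0 := by positivity
    field_simp
    nlinarith
  rw [e, div_le_iff₀ (by positivity)]
  have h5 : cos x * (1 - cos x) ≤ x / 2 := by
    rcases le_or_gt x 1 with h | h
    · have h6 := one_sub_sq_div_two_le_cos (x := x)
      nlinarith
    · nlinarith [sq_nonneg (cos x - 1 / 2)]
  nlinarith

/-- the cost of a separating direction which makes the angle `a` with the tangent -/
noncomputable def cost (v a : ℝ) : ℝ := if a < 0 then v / cos a else v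

lemma cost_nonneg {v a : ℝ} (hv : 0 ≤ v) (ha : -(π / 2) < a) : 0 ≤ cost v a := by
  unfold cost
  split_ifs with h
  · exact div_nonneg hv (cos_pos_of_mem_Ioo ⟨ha, by linarith [pi_pos]⟩).le
  · exact hv

lemma le_cost {v a : ℝ} (hv : 0 ≤ v) (ha : -(π / 2) < a) : v ≤ cost v a := by
  unfold cost
  split_ifs with h
  · have hc := cos_pos_of_mem_Ioo (x := a) ⟨ha, by linarith [pi_pos]⟩
    rw [le_div_iff₀ hc]
    nlinarith [cos_le_one a]
  · exact le_rfl

/-- the constant `2 - √3 + π / 6` -/
noncomputable def cA : ℝ := 2 - √3 + π / 6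

lemma cA_lt : cA < 0.8 := by
  unfold cA
  have := sqrt3_lo
  have := pi_lt_d2
  linarith

lemma lt_cA : π / 4 < cA := by
  unfold cA
  have := sqrt3_hi
  have := pi_lt_d2
  linarith

namespace Supp

variable {h : ℝ → ℝ} (H : Supp h)
include H

/-- reflection -/
lemma reflect : Supp (fun t => h (-t)) where
  conv s t r h1 h2 h3 := by
    have := H.conv (-r) (-t) (-s) (by linarith) (by linarith) (by linarith)
    rw [show -s - -r = r - s by ring, show -s - -t = t - s by ring,
      show -t - -r = r - t by ring] at this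
    linarith
  width t := by
    have := H.width (-(t + π))
    rw [show -(t + π) + π = -t by ring] at this
    linarith
  nonneg t := H.nonneg _
  zero := by
    have := H.per (-π)
    rw [show -π + 2 * π = π by ring, H.zero] at this
    exact this.symm
  cos_le t := by
    have := H.cos_le (-t)
    rwa [cos_neg] at this

/-- first case: the total angle is nonnegative -/
lemma case1 {a b : ℝ} (hab : 0 ≤ a + b) :
    cA - (a + b) / 2 ≤ h (π / 2 + a) + h (3 * π / 2 - b) := by
  rcases le_or_gt (2 * π / 3) (a + b) with h1 | h1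
  · have h2 := H.nonneg (π / 2 + a)
    have h3 := H.nonneg (3 * π / 2 - b)
    have := sqrt3_lo
    have := pi_gt_three
    unfold cA
    linarith
  · have h2 := H.gbound (π + (a - b) / 2) (π / 2 - (a + b) / 2) (by linarith) (by linarith)
    rw [show π + (a - b) / 2 + (π / 2 - (a + b) / 2) = 3 * π / 2 - b by ring,
      show π + (a - b) / 2 - (π / 2 - (a + b) / 2) = π / 2 + a by ring,
      show π / 2 - (a + b) / 2 - π / 6 = π / 3 - (a + b) / 2 by ring] at h2
    have h3 := two_cos_add_le (s := π / 3 - (a + b) / 2) (by linarith) (by linarith)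
    unfold cA
    linarith

/-- second case: `a ≥ 0` and `b < 0` -/
lemma case2 {a b : ℝ} (ha : 0 ≤ a) (hb : -(π / 2) < b) (hab : a + b < 0) :
    cA - (a + b) / 2 ≤ h (π / 2 + a) + h (3 * π / 2 - b) / cos b := by
  have hb0 : b < 0 := by linarith
  have ha2 : a < π / 2 := by linarith
  have hcb : 0 < cos b := cos_pos_of_mem_Ioo ⟨hb, by linarith [pi_pos]⟩
  have hca : 0 < cos a := cos_pos_of_mem_Ioo ⟨by linarith [pi_pos], ha2⟩
  have h1 := H.conv (π / 2 + a) (π / 2 - b) π (by linarith) (by linarith) (by linarith)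
  rw [H.zero, mul_zero, add_zero, show π - (π / 2 + a) = π / 2 - a by ring,
    show π - (π / 2 - b) = π / 2 - (-b) by ring, sin_pi_div_two_sub, sin_pi_div_two_sub,
    cos_neg] at h1
  have h2 : h (3 * π / 2 - b) = 1 - h (π / 2 - b) := by
    rw [← H.opp]; congr 1; ring
  rw [h2]
  have h3 := H.le_one_add_cos (π / 2 + a)
  rw [show π / 2 + a = a + π / 2 by ring, cos_add_pi_div_two,
    show a + π / 2 = π / 2 + a by ring] at h3
  set R := h (π / 2 + a)
  have hR : 0 ≤ R := H.nonneg _
  have h4 : 1 / cos b - R / cos a ≤ (1 - h (π / 2 - b)) / cos b := by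
    rw [div_sub_div _ _ hcb.ne' hca.ne', div_le_div_iff₀ (by positivity) hcb]
    nlinarith
  have h5 := inv_cos_ge (x := -b) (by linarith) (by linarith)
  rw [cos_neg] at h5
  have h6 := aux_sin_cos ha ha2
  have hsec : 0 ≤ 1 / cos a - 1 := by
    rw [sub_nonneg, le_div_iff₀ hca]
    linarith [cos_le_one a]
  have h7 : R * (1 / cos a - 1) ≤ (1 - sin a) * (1 / cos a - 1) := by
    apply mul_le_mul_of_nonneg_right _ hsec
    linarith
  have h8 : R / cos a = R * (1 / cos a - 1) + R := by ring
  have := cA_lt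
  have := sqrt3_lo
  linarith

omit H in
/-- one side of the third case -/
lemma side {a X Z V : ℝ} (ha : 0 < cos a)
    (hV : √3 / 2 * V ≤ sin a * Z + sin (π / 3 - a) * X) :
    1 / cos a - X + tan a / √3 * (X - 2 * Z) ≤ (1 - V) / cos a := by
  have e : sin (π / 3 - a) = √3 / 2 * cos a - 1 / 2 * sin a := by
    rw [sin_sub, sin_pi_div_three, cos_pi_div_three]
  rw [e] at hV
  rw [tan_eq_sin_div_cos]
  have hs : (0 : ℝ) < √3 := by positivity
  have h1 : 1 / cos a - X + sin a / cos a / √3 * (X - 2 * Z)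
      = (√3 - √3 * cos a * X + sin a * (X - 2 * Z)) / (√3 * cos a) := by
    field_simp
  rw [h1, div_le_div_iff₀ (by positivity) ha]
  have h2 : (√3 - √3 * cos a * X + sin a * (X - 2 * Z)) ≤ (1 - V) * √3 := by
    linarith
  calc (√3 - √3 * cos a * X + sin a * (X - 2 * Z)) * cos a
      ≤ ((1 - V) * √3) * cos a := mul_le_mul_of_nonneg_right h2 ha.le
    _ = (1 - V) * (√3 * cos a) := by ring

omit H in
lemma key3 {m M sm sM : ℝ} (hm : 0 < m) (h1 : √3 / 2 + M / 2 ≤ sM) (h2 : √3 / 2 + m / 2 ≤ sm)
    (h3 : 1 ≤ sm) : cA + (m + M) / 2 ≤ sm + sM - 1 + m / √3 * (2 * √3 - 3) := by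
  have hs : (0 : ℝ) < √3 := by positivity
  have s33 : √3 * √3 = 3 := Real.mul_self_sqrt (by norm_num)
  have hA := cA_lt
  have s3 := sqrt3_lo
  have s3' := sqrt3_hi
  have e : m / √3 * (2 * √3 - 3) = m * (2 - √3) := by
    rw [div_mul_eq_mul_div, div_eq_iff hs.ne']
    linear_combination m * s33
  rw [e]
  rcases le_or_gt m 0.3 with h4 | h4
  · have : m * 0.2679 ≤ m * (2 - √3) := mul_le_mul_of_nonneg_left (by linarith) hm.le
    linarith
  · have : m * 0.2679 ≤ m * (2 - √3) := mul_le_mul_of_nonneg_left (by linarith) hm.le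
    linarith

omit H in
/-- the combination of the two sides, `a ≤ b` -/
lemma comb {a b x y z w P Q sa sb : ℝ} (ha : 0 < a) (hab : a ≤ b) (hb2 : b < π / 2)
    (i1 : √3 / 2 + a / 2 ≤ sa) (i2 : √3 / 2 + b / 2 ≤ sb) (one1 : 1 ≤ sa)
    (hxy : x + y = 1) (g1 : z ≤ x / 2) (g2 : w ≤ y / 2) (g3 : z + w ≤ 2 - √3)
    (t1 : sa - x + tan a / √3 * (x - 2 * z) ≤ P) (t2 : sb - y + tan b / √3 * (y - 2 * w) ≤ Q) :
    cA + (a + b) / 2 ≤ P + Q := by
  have hs3 : (0 : ℝ) < √3 := by positivity
  have k := key3 ha i2 i1 one1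
  have u1 : a / √3 * (x - 2 * z) ≤ tan a / √3 * (x - 2 * z) := by
    apply mul_le_mul_of_nonneg_right _ (by linarith)
    exact div_le_div_of_nonneg_right (le_tan ha.le (by linarith)) hs3.le
  have u2 : a / √3 * (y - 2 * w) ≤ tan b / √3 * (y - 2 * w) := by
    apply mul_le_mul_of_nonneg_right _ (by linarith)
    exact div_le_div_of_nonneg_right (hab.trans (le_tan (by linarith) hb2)) hs3.le
  have u3 : a / √3 * (2 * √3 - 3) ≤ a / √3 * (x - 2 * z) + a / √3 * (y - 2 * w) := by
    rw [← mul_add]
    apply mul_le_mul_of_nonneg_left _ (by positivity)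
    linarith
  linarith

/-- facts on the lowest part -/
lemma low : h (7 * π / 6) ≤ h (3 * π / 2) / 2 ∧ h (5 * π / 6) ≤ h (π / 2) / 2 ∧
    h (7 * π / 6) + h (5 * π / 6) ≤ 2 - √3 := by
  have hpi := pi_pos
  refine ⟨?_, ?_, ?_⟩
  · have := H.conv π (7 * π / 6) (3 * π / 2) (by linarith) (by linarith) (by linarith)
    rw [H.zero, mul_zero, zero_add, show 3 * π / 2 - π = π / 2 by ring, sin_pi_div_two, one_mul,
      show 7 * π / 6 - π = π / 6 by ring, sin_pi_div_six] at this
    linarith
  · have := H.conv (π / 2) (5 * π / 6) π (by linarith) (by linarith) (by linarith)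
    rw [H.zero, mul_zero, add_zero, show π - π / 2 = π / 2 by ring, sin_pi_div_two, one_mul,
      show π - 5 * π / 6 = π / 6 by ring, sin_pi_div_six] at this
    linarith
  · have := H.conv (-(π / 6)) 0 (π / 6) (by linarith) (by linarith) (by linarith)
    rw [show π / 6 - -(π / 6) = π / 3 by ring, sub_zero, zero_sub, neg_neg, sin_pi_div_three,
      sin_pi_div_six] at this
    have q1 := H.width 0
    rw [zero_add, H.zero] at q1
    have q2 := H.width (-(π / 6))
    rw [show -(π / 6) + π = 5 * π / 6 by ring] at q2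
    have q3 := H.width (π / 6)
    rw [show π / 6 + π = 7 * π / 6 by ring] at q3
    have q0 : h 0 = 1 := by linarith
    rw [q0] at this
    linarith

lemma simple1 {a : ℝ} (ha : 0 < a) (ha2 : a < π / 2) :
    1 / cos a - h (3 * π / 2) ≤ (1 - h (3 * π / 2 - a)) / cos a := by
  have hca : 0 < cos a := cos_pos_of_mem_Ioo ⟨by linarith, ha2⟩
  have c1 : h (3 * π / 2 - a) ≤ cos a * h (3 * π / 2) := by
    have := H.conv π (3 * π / 2 - a) (3 * π / 2) (by linarith) (by linarith) (by linarith)
    rw [H.zero, mul_zero, zero_add, show 3 * π / 2 - π = π / 2 by ring, sin_pi_div_two, one_mul,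
      show 3 * π / 2 - a - π = π / 2 - a by ring, sin_pi_div_two_sub] at this
    exact this
  rw [le_div_iff₀ hca, sub_mul, one_div, inv_mul_cancel₀ hca.ne']
  linarith

lemma simple2 {b : ℝ} (hb : 0 < b) (hb2 : b < π / 2) :
    1 / cos b - h (π / 2) ≤ (1 - h (π / 2 + b)) / cos b := by
  have hcb : 0 < cos b := cos_pos_of_mem_Ioo ⟨by linarith, hb2⟩
  have c2 : h (π / 2 + b) ≤ cos b * h (π / 2) := by
    have := H.conv (π / 2) (π / 2 + b) π (by linarith) (by linarith) (by linarith)
    rw [H.zero, mul_zero, add_zero, show π - π / 2 = π / 2 by ring, sin_pi_div_two, one_mul,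
      show π - (π / 2 + b) = π / 2 - b by ring, sin_pi_div_two_sub] at this
    exact this
  rw [le_div_iff₀ hcb, sub_mul, one_div, inv_mul_cancel₀ hcb.ne']
  linarith

/-- third case: both angles are negative; `a`, `b` are their absolute values -/
lemma case3 {a b : ℝ} (ha : 0 < a) (ha2 : a < π / 2) (hb : 0 < b) (hb2 : b < π / 2) :
    cA + (a + b) / 2 ≤ h (π / 2 - a) / cos a + h (3 * π / 2 + b) / cos b := by
  have hcb : 0 < cos b := cos_pos_of_mem_Ioo ⟨by linarith, hb2⟩
  have hca : 0 < cos a := cos_pos_of_mem_Ioo ⟨by linarith, ha2⟩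
  have e1 : h (π / 2 - a) = 1 - h (3 * π / 2 - a) := by
    rw [← H.opp']; congr 1; ring
  have e2 : h (3 * π / 2 + b) = 1 - h (π / 2 + b) := by
    rw [← H.opp]; congr 1; ring
  rw [e1, e2]
  have hxy : h (π / 2) + h (3 * π / 2) = 1 := by
    have := H.width (π / 2)
    rw [show π / 2 + π = 3 * π / 2 by ring] at this
    exact this
  have d1 := H.simple1 ha ha2
  have d2 := H.simple2 hb hb2
  have i1 := inv_cos_ge ha.le ha2
  have i2 := inv_cos_ge hb.le hb2
  have hA := cA_lt
  have s3 := sqrt3_lo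
  have hpi := pi_lt_d2
  have hpi3 := pi_gt_three
  rcases lt_or_ge (π / 3) a with ha3 | ha3
  · have : 2 ≤ 1 / cos a := by
      rw [le_div_iff₀ hca]
      have := cos_lt_cos_of_nonneg_of_le_pi_div_two (x := π / 3) (y := a) (by linarith) ha2.le ha3
      rw [cos_pi_div_three] at this
      linarith
    linarith
  rcases lt_or_ge (π / 3) b with hb3 | hb3
  · have : 2 ≤ 1 / cos b := by
      rw [le_div_iff₀ hcb]
      have := cos_lt_cos_of_nonneg_of_le_pi_div_two (x := π / 3) (y := b) (by linarith) hb2.le hb3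
      rw [cos_pi_div_three] at this
      linarith
    linarith
  -- both at most `π / 3`
  have f1 : √3 / 2 * h (3 * π / 2 - a) ≤
      sin a * h (7 * π / 6) + sin (π / 3 - a) * h (3 * π / 2) := by
    have := H.conv (7 * π / 6) (3 * π / 2 - a) (3 * π / 2) (by linarith) (by linarith) (by linarith)
    rw [show 3 * π / 2 - 7 * π / 6 = π / 3 by ring, sin_pi_div_three,
      show 3 * π / 2 - (3 * π / 2 - a) = a by ring,
      show 3 * π / 2 - a - 7 * π / 6 = π / 3 - a by ring] at this
    linarith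
  have f2 : √3 / 2 * h (π / 2 + b) ≤ sin b * h (5 * π / 6) + sin (π / 3 - b) * h (π / 2) := by
    have := H.conv (π / 2) (π / 2 + b) (5 * π / 6) (by linarith) (by linarith) (by linarith)
    rw [show 5 * π / 6 - π / 2 = π / 3 by ring, sin_pi_div_three,
      show 5 * π / 6 - (π / 2 + b) = π / 3 - b by ring,
      show π / 2 + b - π / 2 = b by ring] at this
    linarith
  obtain ⟨g1, g2, g3⟩ := H.low
  have t1 := side hca f1
  have t2 := side hcb f2
  have one1 : 1 ≤ 1 / cos a := by
    rw [le_div_iff₀ hca]; linarith [cos_le_one a]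
  have one2 : 1 ≤ 1 / cos b := by
    rw [le_div_iff₀ hcb]; linarith [cos_le_one b]
  rcases le_total a b with hab | hab
  · exact comb ha hab hb2 i1 i2 one1 (by linarith) g1 g2 g3 t1 t2
  · have := comb hb hab ha2 i2 i1 one2 hxy g2 g1 (by linarith) t2 t1
    linarith

/-- **The inequality for one body.** -/
theorem body {a b : ℝ} (ha : -(π / 2) < a) (ha2 : a ≤ π / 2) (hb : -(π / 2) < b)
    (hb2 : b ≤ π / 2) :
    cA - (a + b) / 2 ≤ cost (h (π / 2 + a)) a + cost (h (3 * π / 2 - b)) b := by
  have n1 := H.nonneg (π / 2 + a)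
  have n2 := H.nonneg (3 * π / 2 - b)
  rcases le_or_gt 0 (a + b) with hab | hab
  · have := H.case1 hab
    have := le_cost n1 ha
    have := le_cost n2 hb
    linarith
  rcases lt_or_ge a 0 with h1 | h1
  · rcases lt_or_ge b 0 with h2 | h2
    · have := H.case3 (a := -a) (b := -b) (by linarith) (by linarith) (by linarith) (by linarith)
      rw [show π / 2 - -a = π / 2 + a by ring, show 3 * π / 2 + -b = 3 * π / 2 - b by ring,
        cos_neg, cos_neg] at this
      unfold cost
      rw [if_pos h1, if_pos h2]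
      linarith
    · have := H.reflect.case2 (a := b) (b := a) h2 ha (by linarith)
      have e1 : h (-(π / 2 + b)) = h (3 * π / 2 - b) := by
        rw [← H.per]; congr 1; ring
      have e2 : h (-(3 * π / 2 - a)) = h (π / 2 + a) := by
        rw [← H.per]; congr 1; ring
      rw [e1, e2] at this
      unfold cost
      rw [if_pos h1, if_neg (not_lt.2 h2)]
      linarith
  · have := H.case2 (a := a) (b := b) h1 hb hab
    unfold cost
    rw [if_neg (not_lt.2 h1), if_pos (by linarith)]
    exact this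

end Supp

end Pool.Agent.W5h2.Kiss
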