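import Mathlib
import Pool.Agent.W5h2.Kiss.Body

set_option autoImplicit false

/-!
# Plane bodies of constant width: support functions, contact points, separation
-/

namespace Pool.Agent.W5h2.Kiss

open Real Set

/-- the Euclidean plane -/
abbrev E : Type := EuclideanSpace ℝ (Fin 2)

/-- the unit vector of angle `t` -/
noncomputable def e (t : ℝ) : E := !₂[cos t, sin t]

lemma e_zero (t : ℝ) : e t 0 = cos t := by simp [e]
lemma e_one (t : ℝ) : e t 1 = sin t := by simp [e]

lemma inner_eq (x y : E) : inner ℝ x y = x 0 * y 0 + x 1 * y 1 := by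
  rw [PiLp.inner_apply, Fin.sum_univ_two]
  simp [mul_comm]

lemma inner_e_e (s t : ℝ) : inner ℝ (e s) (e t) = cos (s - t) := by
  rw [inner_eq, e_zero, e_zero, e_one, e_one, cos_sub]

lemma norm_e (t : ℝ) : ‖e t‖ = 1 := by
  have h : inner ℝ (e t) (e t) = (1 : ℝ) := by rw [inner_e_e, sub_self, cos_zero]
  rw [real_inner_self_eq_norm_sq] at h
  nlinarith [norm_nonneg (e t)]

lemma ext2 {x y : E} (h0 : x 0 = y 0) (h1 : x 1 = y 1) : x = y := by
  ext i; fin_cases i <;> assumption

lemma e_add_pi (t : ℝ) : e (t + π) = - e t := by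
  apply ext2 <;> simp [e_zero, e_one, cos_add_pi, sin_add_pi]

lemma e_add_two_pi (t : ℝ) : e (t + 2 * π) = e t := by
  apply ext2 <;> simp [e_zero, e_one]

lemma exists_e {u : E} (hu : ‖u‖ = 1) : ∃ t, -π < t ∧ t ≤ π ∧ u = e t := by
  have h : u 0 ^ 2 + u 1 ^ 2 = 1 := by
    have h1 : inner ℝ u u = (1 : ℝ) := by rw [real_inner_self_eq_norm_sq, hu]; norm_num
    rw [inner_eq] at h1
    nlinarith
  let z : ℂ := ⟨u 0, u 1⟩
  have hz : ‖z‖ = 1 := by
    rw [Complex.norm_def, Complex.normSq_apply]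
    simp only [z]
    rw [show u 0 * u 0 + u 1 * u 1 = 1 by nlinarith, Real.sqrt_one]
  have hz0 : z ≠ 0 := by
    intro h0; rw [h0, norm_zero] at hz; norm_num at hz
  refine ⟨Complex.arg z, Complex.neg_pi_lt_arg z, Complex.arg_le_pi z, ?_⟩
  apply ext2
  · rw [e_zero, Complex.cos_arg hz0, hz, div_one]
  · rw [e_one, Complex.sin_arg, hz, div_one]

/-- a body of constant width `w` -/
structure CW (K : Set E) (w : ℝ) : Prop where
  convex : Convex ℝ K
  compact : IsCompact K
  pos : 0 < w
  width : ∀ u : E, ‖u‖ = 1 → ∃ x ∈ K, ∃ y ∈ K, (∀ z ∈ K, inner ℝ z u ≤ inner ℝ x u) ∧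
    (∀ z ∈ K, inner ℝ y u ≤ inner ℝ z u) ∧ inner ℝ (x - y) u = w

lemma cw_of {K : Set E} {w : ℝ} (h1 : Convex ℝ K) (h2 : IsCompact K) (h3 : K.Nonempty)
    (hw : 0 < w) (h : ∀ u : E, ‖u‖ = 1 →
        sSup ((fun x => inner ℝ x u) '' K) - sInf ((fun x => inner ℝ x u) '' K) = w) : CW K w := by
  refine ⟨h1, h2, hw, fun u hu => ?_⟩
  have hc : Continuous fun x : E => inner ℝ x u := by fun_prop
  obtain ⟨x, hx, hx'⟩ := h2.exists_isMaxOn h3 hc.continuousOn
  obtain ⟨y, hy, hy'⟩ := h2.exists_isMinOn h3 hc.continuousOn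
  refine ⟨x, hx, y, hy, fun z hz => hx' hz, fun z hz => hy' hz, ?_⟩
  have e1 : sSup ((fun x => inner ℝ x u) '' K) = inner ℝ x u := by
    apply IsGreatest.csSup_eq
    refine ⟨⟨x, hx, rfl⟩, ?_⟩
    rintro _ ⟨z, hz, rfl⟩
    exact hx' hz
  have e2 : sInf ((fun x => inner ℝ x u) '' K) = inner ℝ y u := by
    apply IsLeast.csInf_eq
    refine ⟨⟨y, hy, rfl⟩, ?_⟩
    rintro _ ⟨z, hz, rfl⟩
    exact hy' hz
  rw [← h u hu, e1, e2, inner_sub_left]

namespace CW

variable {K : Set E} {w : ℝ} (H : CW K w)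
include H

lemma image (f : E ≃ᵢ E) : CW (f '' K) w := by
  let g : E ≃ᵃⁱ[ℝ] E := f.toRealAffineIsometryEquiv
  have hg : ∀ x, g x = f x := fun x => rfl
  have hfg : f '' K = g '' K := by
    apply image_congr; intro x _; rfl
  refine ⟨?_, ?_, H.pos, ?_⟩
  · rw [hfg]
    exact H.convex.affine_image g.toAffineEquiv.toAffineMap
  · exact H.compact.image f.continuous
  · intro u hu
    have hL : ∀ x y : E, inner ℝ (f x - f y) u = inner ℝ (x - y) (g.linearIsometryEquiv.symm u) := by
      intro x y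
      have h1 : f x - f y = g.linearIsometryEquiv (x - y) := by
        have := g.toAffineEquiv.toAffineMap.linearMap_vsub x y
        simp only [vsub_eq_sub] at this
        exact this.symm
      rw [h1, ← LinearIsometryEquiv.inner_map_map g.linearIsometryEquiv (x - y),
        LinearIsometryEquiv.apply_symm_apply]
    obtain ⟨x, hx, y, hy, h1, h2, h3⟩ := H.width (g.linearIsometryEquiv.symm u)
      (by rw [LinearIsometryEquiv.norm_map, hu])
    refine ⟨f x, ⟨x, hx, rfl⟩, f y, ⟨y, hy, rfl⟩, ?_, ?_, ?_⟩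
    · rintro _ ⟨z, hz, rfl⟩
      have := hL z x
      have h4 := h1 z hz
      rw [inner_sub_left, inner_sub_left] at this
      linarith
    · rintro _ ⟨z, hz, rfl⟩
      have := hL z y
      have h4 := h2 z hz
      rw [inner_sub_left, inner_sub_left] at this
      linarith
    · rw [hL, h3]

lemma nonempty : K.Nonempty := by
  obtain ⟨x, hx, _⟩ := H.width (e 0) (norm_e 0)
  exact ⟨x, hx⟩

/-- the diameter is at most `w` -/
lemma diam {x y : E} (hx : x ∈ K) (hy : y ∈ K) : ‖x - y‖ ≤ w := by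
  by_cases h0 : x - y = 0
  · rw [h0, norm_zero]; exact H.pos.le
  have hn : 0 < ‖x - y‖ := norm_pos_iff.2 h0
  set u : E := (‖x - y‖⁻¹) • (x - y) with hu
  have hu1 : ‖u‖ = 1 := by
    rw [hu, norm_smul, norm_inv, norm_norm, inv_mul_cancel₀ hn.ne']
  obtain ⟨a, ha, b, hb, h1, h2, h3⟩ := H.width u hu1
  have h4 := h1 x hx
  have h5 := h2 y hy
  rw [inner_sub_left] at h3
  have h6 : inner ℝ (x - y) u = ‖x - y‖ := by
    rw [hu, inner_smul_right, real_inner_self_eq_norm_sq]
    field_simp
  rw [inner_sub_left] at h6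
  linarith

/-- two points at distance `w` in direction `u` -/
lemma eq_of_inner {x y u : E} (hx : x ∈ K) (hy : y ∈ K) (hu : ‖u‖ = 1)
    (h : inner ℝ (x - y) u = w) : x - y = w • u := by
  have h1 := H.diam hx hy
  have h2 : ‖x - y - w • u‖ ^ 2 ≤ 0 := by
    rw [norm_sub_sq_real, inner_smul_right, h, norm_smul, hu, mul_one, Real.norm_eq_abs, sq_abs]
    have : ‖x - y‖ ^ 2 ≤ w ^ 2 := pow_le_pow_left₀ (norm_nonneg _) h1 2
    nlinarith
  have h3 : ‖x - y - w • u‖ = 0 := by
    have := sq_nonneg ‖x - y - w • u‖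
    exact pow_eq_zero_iff (two_ne_zero) |>.1 (le_antisymm h2 this)
  exact sub_eq_zero.1 (norm_eq_zero.1 h3)

/-- uniqueness of support points -/
lemma unique {x y u : E} (hu : ‖u‖ = 1) (hx : x ∈ K) (hy : y ∈ K)
    (h1 : ∀ z ∈ K, inner ℝ z u ≤ inner ℝ x u) (h2 : ∀ z ∈ K, inner ℝ z u ≤ inner ℝ y u) :
    x = y := by
  obtain ⟨a, ha, b, hb, h3, h4, h5⟩ := H.width u hu
  have e1 : inner ℝ (x - b) u = w := by
    have := h1 a ha
    have := h3 x hx
    rw [inner_sub_left] at h5 ⊢
    linarith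
  have e2 : inner ℝ (y - b) u = w := by
    have := h2 a ha
    have := h3 y hy
    rw [inner_sub_left] at h5 ⊢
    linarith
  have f1 := H.eq_of_inner hx hb hu e1
  have f2 := H.eq_of_inner hy hb hu e2
  have : x - b = y - b := by rw [f1, f2]
  simpa using this

lemma interior_nonempty : (interior K).Nonempty := by
  rw [H.convex.interior_nonempty_iff_affineSpan_eq_top]
  by_contra hne
  obtain ⟨a, ha⟩ := H.nonempty
  have hdir : (affineSpan ℝ K).direction ≠ ⊤ := by
    intro htop
    apply hne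
    rw [← AffineSubspace.direction_eq_top_iff_of_nonempty ⟨a, subset_affineSpan ℝ K ha⟩]
    exact htop
  have horth : (affineSpan ℝ K).directionᗮ ≠ ⊥ := by
    intro hbot
    exact hdir ((Submodule.orthogonal_eq_bot_iff).1 hbot)
  obtain ⟨v, hv, hv0⟩ := Submodule.exists_mem_ne_zero_of_ne_bot horth
  have hn : 0 < ‖v‖ := norm_pos_iff.2 hv0
  obtain ⟨x, hx, y, hy, -, -, h3⟩ := H.width (‖v‖⁻¹ • v)
    (by rw [norm_smul, norm_inv, norm_norm, inv_mul_cancel₀ hn.ne'])
  have h4 : x - y ∈ (affineSpan ℝ K).direction :=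
    AffineSubspace.vsub_mem_direction (subset_affineSpan ℝ K hx) (subset_affineSpan ℝ K hy)
  have h5 : inner ℝ (x - y) v = (0 : ℝ) := (Submodule.mem_orthogonal _ _).1 hv _ h4
  rw [inner_smul_right, h5, mul_zero] at h3
  exact absurd h3 H.pos.ne

end CW

/-- separation of two bodies with disjoint interiors -/
lemma separate {A B : Set E} {w : ℝ} (hA : CW A w) (hB : CW B w)
    (h : interior A ∩ interior B = ∅) : ∃ n : E, ‖n‖ = 1 ∧ ∀ a ∈ A, ∀ b ∈ B,
      inner ℝ a n ≤ inner ℝ b n := by
  obtain ⟨f, u, h1, h2⟩ := geometric_hahn_banach_open_open hA.convex.interior isOpen_interior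
    hB.convex.interior isOpen_interior (disjoint_iff_inter_eq_empty.2 h)
  obtain ⟨a0, ha0⟩ := hA.interior_nonempty
  obtain ⟨b0, hb0⟩ := hB.interior_nonempty
  let v : E := (InnerProductSpace.toDual ℝ E).symm f
  have hv : ∀ x, f x = inner ℝ x v := by
    intro x
    rw [real_inner_comm]
    exact (InnerProductSpace.toDual_symm_apply).symm
  have hv0 : v ≠ 0 := by
    intro h0
    have := (h1 a0 ha0).trans (h2 b0 hb0)
    rw [hv, hv, h0, inner_zero_right, inner_zero_right] at this
    exact lt_irrefl _ this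
  have hn : 0 < ‖v‖ := norm_pos_iff.2 hv0
  have hcA : ∀ a ∈ A, inner ℝ a v ≤ u := by
    intro a ha
    have hcl : a ∈ closure (interior A) := by
      rw [hA.convex.closure_interior_eq_closure_of_nonempty_interior hA.interior_nonempty]
      exact subset_closure ha
    have : closure (interior A) ⊆ {x : E | inner ℝ x v ≤ u} := by
      apply closure_minimal
      · intro x hx
        have := h1 x hx
        rw [hv] at this
        exact this.le
      · exact isClosed_le (by fun_prop) continuous_const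
    exact this hcl
  have hcB : ∀ b ∈ B, u ≤ inner ℝ b v := by
    intro a ha
    have hcl : a ∈ closure (interior B) := by
      rw [hB.convex.closure_interior_eq_closure_of_nonempty_interior hB.interior_nonempty]
      exact subset_closure ha
    have : closure (interior B) ⊆ {x : E | u ≤ inner ℝ x v} := by
      apply closure_minimal
      · intro x hx
        have := h2 x hx
        rw [hv] at this
        exact this.le
      · exact isClosed_le continuous_const (by fun_prop)
    exact this hcl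
  refine ⟨‖v‖⁻¹ • v, by rw [norm_smul, norm_inv, norm_norm, inv_mul_cancel₀ hn.ne'], ?_⟩
  intro a ha b hb
  rw [inner_smul_right, inner_smul_right]
  exact mul_le_mul_of_nonneg_left ((hcA a ha).trans (hcB b hb)) (by positivity)

/-- the support function -/
noncomputable def supp (K : Set E) (u : E) : ℝ := sSup ((fun x => inner ℝ x u) '' K)

lemma le_supp {K : Set E} (hK : IsCompact K) {x u : E} (hx : x ∈ K) : inner ℝ x u ≤ supp K u := by
  have hc : Continuous fun x : E => inner ℝ x u := by fun_prop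
  exact le_csSup (hK.image hc).bddAbove ⟨x, hx, rfl⟩

lemma supp_le {K : Set E} (hne : K.Nonempty) {u : E} {c : ℝ} (h : ∀ x ∈ K, inner ℝ x u ≤ c) :
    supp K u ≤ c := by
  apply csSup_le (hne.image _)
  rintro _ ⟨x, hx, rfl⟩
  exact h x hx

lemma supp_eq {K : Set E} {x u : E} (hx : x ∈ K) (h : ∀ z ∈ K, inner ℝ z u ≤ inner ℝ x u) :
    supp K u = inner ℝ x u := by
  apply IsGreatest.csSup_eq
  refine ⟨⟨x, hx, rfl⟩, ?_⟩
  rintro _ ⟨z, hz, rfl⟩
  exact h z hz

lemma CW.supp_add {K : Set E} {w : ℝ} (H : CW K w) {u : E} (hu : ‖u‖ = 1) :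
    supp K u + supp K (-u) = w := by
  obtain ⟨x, hx, y, hy, h1, h2, h3⟩ := H.width u hu
  rw [supp_eq hx h1, supp_eq (x := y) hy, inner_neg_right]
  · rw [← h3, inner_sub_left]; ring
  · intro z hz
    rw [inner_neg_right, inner_neg_right]
    linarith [h2 z hz]

/-- the normalized support function relative to `p`, with angles relative to `φ` -/
noncomputable def hf (C : Set E) (w : ℝ) (p : E) (φ t : ℝ) : ℝ :=
  (supp C (e (φ + t)) - inner ℝ p (e (φ + t))) / w

/-- the point opposite to a support point -/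
lemma CW.opp_mem {C : Set E} {w : ℝ} (H : CW C w) {p : E} {φ : ℝ} (hp : p ∈ C)
    (hφ : ∀ y ∈ C, 0 ≤ inner ℝ (y - p) (e φ)) : p + w • e φ ∈ C := by
  obtain ⟨x, hx, y, hy, h1, h2, h3⟩ := H.width (e φ) (norm_e φ)
  have h4 : inner ℝ (x - p) (e φ) = w := by
    have a1 := hφ y hy
    have a2 := h2 p hp
    rw [inner_sub_left] at h3 a1 ⊢
    linarith
  have := H.eq_of_inner hx hp (norm_e φ) h4
  rw [← this, add_sub_cancel]
  exact hx

lemma CW.hf_supp {C : Set E} {w : ℝ} (H : CW C w) {p : E} {φ : ℝ} (hp : p ∈ C)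
    (hφ : ∀ y ∈ C, 0 ≤ inner ℝ (y - p) (e φ)) : Supp (hf C w p φ) := by
  have hw := H.pos
  have hle : ∀ x ∈ C, ∀ t, inner ℝ (x - p) (e (φ + t)) ≤ w * hf C w p φ t := by
    intro x hx t
    unfold hf
    rw [mul_div_cancel₀ _ hw.ne', inner_sub_left]
    linarith [le_supp H.compact hx (u := e (φ + t))]
  refine ⟨?_, ?_, ?_, ?_, ?_⟩
  · intro s t r hst htr hrs
    have h1 : 0 ≤ sin (r - t) := sin_nonneg_of_nonneg_of_le_pi (by linarith) (by linarith)
    have h2 : 0 ≤ sin (t - s) := sin_nonneg_of_nonneg_of_le_pi (by linarith) (by linarith)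
    have h3 : 0 ≤ sin (r - s) := sin_nonneg_of_nonneg_of_le_pi (by linarith) (by linarith)
    have hvec : ∀ x : E, sin (r - s) * inner ℝ x (e (φ + t)) =
        sin (r - t) * inner ℝ x (e (φ + s)) + sin (t - s) * inner ℝ x (e (φ + r)) := by
      intro x
      rw [inner_eq, inner_eq, inner_eq]
      simp only [e_zero, e_one, cos_add, sin_add, sin_sub]
      have hs := sin_sq_add_cos_sq s
      have ht := sin_sq_add_cos_sq t
      have hr := sin_sq_add_cos_sq r
      ring
    obtain ⟨x, hx, y, hy, g1, g2, g3⟩ := H.width (e (φ + t)) (norm_e _)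
    have e1 : w * hf C w p φ t = inner ℝ (x - p) (e (φ + t)) := by
      unfold hf
      rw [mul_div_cancel₀ _ hw.ne', inner_sub_left, supp_eq hx g1]
    have h4 := hvec (x - p)
    have h5 := hle x hx s
    have h6 := hle x hx r
    have h7 : sin (r - s) * (w * hf C w p φ t) ≤
        sin (r - t) * (w * hf C w p φ s) + sin (t - s) * (w * hf C w p φ r) := by
      rw [e1, h4]
      exact add_le_add (mul_le_mul_of_nonneg_left h5 h1) (mul_le_mul_of_nonneg_left h6 h2)
    have h8 : w * (sin (r - s) * hf C w p φ t) ≤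
        w * (sin (r - t) * hf C w p φ s + sin (t - s) * hf C w p φ r) := by
      linarith
    exact le_of_mul_le_mul_left h8 hw
  · intro t
    unfold hf
    rw [← add_assoc, e_add_pi, inner_neg_right, ← add_div, div_eq_one_iff_eq hw.ne']
    have := H.supp_add (norm_e (φ + t))
    linarith
  · intro t
    have := hle p hp t
    rw [sub_self, inner_zero_left] at this
    exact nonneg_of_mul_nonneg_right this hw
  · unfold hf
    rw [supp_eq (x := p) hp, sub_self, zero_div]
    intro z hz
    rw [e_add_pi, inner_neg_right, inner_neg_right]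
    have := hφ z hz
    rw [inner_sub_left] at this
    linarith
  · intro t
    have h1 := hle _ (H.opp_mem hp hφ) t
    rw [add_sub_cancel_left, inner_smul_left, inner_e_e] at h1
    simp only [conj_trivial] at h1
    rw [show φ - (φ + t) = -t by ring, cos_neg] at h1
    exact le_of_mul_le_mul_left h1 hw

end Pool.Agent.W5h2.Kiss
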