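import Mathlib
import Pool.Agent.W5h2.Kiss.Geom

set_option autoImplicit false

/-!
# The inequality for two consecutive bodies
-/

namespace Pool.Agent.W5h2.Kiss

open Real Set

lemma hf_mul {C : Set E} {w : ℝ} (hw : 0 < w) (p : E) (φ t : ℝ) :
    w * hf C w p φ t = supp C (e (φ + t)) - inner ℝ p (e (φ + t)) := by
  unfold hf
  rw [mul_div_cancel₀ _ hw.ne']

/-- capping the angle at `π / 2` -/
lemma cost_cap {h : ℝ → ℝ} (H : Supp h) {a : ℝ} :
    cost (h (π / 2 + min a (π / 2))) (min a (π / 2)) ≤ cost (h (π / 2 + a)) a := by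
  rcases le_total a (π / 2) with h1 | h1
  · rw [min_eq_left h1]
  · rw [min_eq_right h1]
    have h2 := pi_pos
    unfold cost
    rw [if_neg (by linarith), if_neg (by linarith), show π / 2 + π / 2 = π by ring, H.zero]
    exact H.nonneg _

lemma cost_cap' {h : ℝ → ℝ} (H : Supp h) {a : ℝ} :
    cost (h (3 * π / 2 - min a (π / 2))) (min a (π / 2)) ≤ cost (h (3 * π / 2 - a)) a := by
  rcases le_total a (π / 2) with h1 | h1
  · rw [min_eq_left h1]
  · rw [min_eq_right h1]
    have h2 := pi_pos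
    unfold cost
    rw [if_neg (by linarith), if_neg (by linarith), show 3 * π / 2 - π / 2 = π by ring, H.zero]
    exact H.nonneg _

lemma inner_le_norm_of {v u : E} {t a : ℝ} (hv : inner ℝ v (e t) ≤ 0) (ha : a ≤ 0)
    (ha2 : -(π / 2) < a) (hu : u = e (t + π / 2 + a)) : inner ℝ v u ≤ cos a * ‖v‖ := by
  have h1 : inner ℝ v u = cos a * inner ℝ v (e (t + π / 2)) - sin a * inner ℝ v (e t) := by
    rw [hu, inner_eq, inner_eq, inner_eq]
    simp only [e_zero, e_one, cos_add, sin_add, cos_pi_div_two, sin_pi_div_two]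
    ring
  have hs : sin a ≤ 0 := sin_nonpos_of_nonpos_of_neg_pi_le ha (by linarith [pi_pos])
  have hc : 0 ≤ cos a := (cos_pos_of_mem_Ioo ⟨ha2, by linarith [pi_pos]⟩).le
  have h2 : inner ℝ v (e (t + π / 2)) ≤ ‖v‖ := by
    have := real_inner_le_norm v (e (t + π / 2))
    rwa [norm_e, mul_one] at this
  rw [h1]
  nlinarith

lemma inner_le_norm_of' {v u : E} {t b : ℝ} (hv : 0 ≤ inner ℝ v (e t)) (hb : b ≤ 0)
    (hb2 : -(π / 2) < b) (hu : u = e (t + π / 2 - b)) : inner ℝ v u ≤ cos b * ‖v‖ := by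
  have h1 : inner ℝ v u = cos b * inner ℝ v (e (t + π / 2)) + sin b * inner ℝ v (e t) := by
    rw [hu, inner_eq, inner_eq, inner_eq]
    simp only [e_zero, e_one, cos_add, sin_add, cos_sub, sin_sub, cos_pi_div_two, sin_pi_div_two]
    ring
  have hs : sin b ≤ 0 := sin_nonpos_of_nonpos_of_neg_pi_le hb (by linarith [pi_pos])
  have hc : 0 ≤ cos b := (cos_pos_of_mem_Ioo ⟨hb2, by linarith [pi_pos]⟩).le
  have h2 : inner ℝ v (e (t + π / 2)) ≤ ‖v‖ := by
    have := real_inner_le_norm v (e (t + π / 2))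
    rwa [norm_e, mul_one] at this
  rw [h1]
  nlinarith

/-- the range of the separating direction -/
lemma angle_range {v : E} {φ θ α R L : ℝ} (hθ : 0 < θ) (hθ2 : θ < π)
    (hv1 : inner ℝ v (e φ) ≤ 0) (hv2 : 0 ≤ inner ℝ v (e (φ + θ)))
    (hα2 : α ≤ 3 * π / 2) (hR : R = 0 → 0 ≤ sin α) (hR0 : 0 ≤ R)
    (hL : L = 0 → sin (α - θ) ≤ 0) (hL0 : 0 ≤ L) (h : R + L ≤ inner ℝ v (e (φ + π / 2 + α))) :
    α < θ + π / 2 := by
  by_contra hcon
  push Not at hcon
  have hpi := pi_pos
  have hid : sin θ * inner ℝ v (e (φ + π / 2 + α)) =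
      -cos (α - θ) * inner ℝ v (e φ) + cos α * inner ℝ v (e (φ + θ)) := by
    rw [inner_eq, inner_eq, inner_eq]
    simp only [e_zero, e_one, cos_add, sin_add, cos_sub, cos_pi_div_two, sin_pi_div_two]
    have h1 := sin_sq_add_cos_sq θ
    ring
  have hs : 0 < sin θ := sin_pos_of_pos_of_lt_pi hθ hθ2
  have hc1 : cos (α - θ) ≤ 0 :=
    cos_nonpos_of_pi_div_two_le_of_le (by linarith) (by linarith)
  have hc2 : cos α ≤ 0 := cos_nonpos_of_pi_div_two_le_of_le (by linarith) (by linarith)
  have h1 : sin θ * inner ℝ v (e (φ + π / 2 + α)) ≤ 0 := by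
    rw [hid]
    nlinarith
  have h2 : inner ℝ v (e (φ + π / 2 + α)) ≤ 0 := by
    by_contra h3
    push Not at h3
    nlinarith
  have h3 : R = 0 := by linarith
  have h4 : L = 0 := by linarith
  have hR := hR h3
  have hL := hL h4
  -- `α ≤ π`
  have h5 : α ≤ π := by
    by_contra h6
    push Not at h6
    have : 0 < sin (α - π) := sin_pos_of_pos_of_lt_pi (by linarith) (by linarith)
    rw [sin_sub_pi] at this
    linarith
  have h6 : 0 < sin (α - θ) := sin_pos_of_pos_of_lt_pi (by linarith) (by linarith)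
  linarith

/-- **The inequality for two consecutive bodies.** -/
theorem pair {C D : Set E} {w : ℝ} (hC : CW C w) (hD : CW D w)
    (hCD : interior C ∩ interior D = ∅) {p q : E} (hp : p ∈ C) (hq : q ∈ D) {φ θ : ℝ}
    (hθ : 0 ≤ θ) (hpC : ∀ y ∈ C, 0 ≤ inner ℝ (y - p) (e φ))
    (hqD : ∀ y ∈ D, 0 ≤ inner ℝ (y - q) (e (φ + θ)))
    (hv1 : inner ℝ (q - p) (e φ) ≤ 0) (hv2 : 0 ≤ inner ℝ (q - p) (e (φ + θ)))
    (h0 : θ = 0 → q = p) :
    ∃ α β, -(π / 2) < α ∧ α ≤ π / 2 ∧ -(π / 2) < β ∧ β ≤ π / 2 ∧ α + β ≤ θ ∧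
      cost (hf C w p φ (π / 2 + α)) α + cost (hf D w q (φ + θ) (3 * π / 2 - β)) β
        ≤ ‖q - p‖ / w := by
  have hpi := pi_pos
  have hw := hC.pos
  have HC := hC.hf_supp hp hpC
  have HD := hD.hf_supp hq hqD
  set R := hf C w p φ with hRdef
  set L := hf D w q (φ + θ) with hLdef
  rcases le_or_gt π θ with hθπ | hθπ
  · refine ⟨π / 2, π / 2, by linarith, le_rfl, by linarith, le_rfl, by linarith, ?_⟩
    rw [show π / 2 + π / 2 = π by ring, show 3 * π / 2 - π / 2 = π by ring, HC.zero, HD.zero]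
    unfold cost
    rw [if_neg (by linarith)]
    have : 0 ≤ ‖q - p‖ / w := by positivity
    linarith
  -- the separating direction
  obtain ⟨n, hn, hsep⟩ := separate hC hD hCD
  have hexα : ∃ α, -(π / 2) < α ∧ α ≤ 3 * π / 2 ∧ n = e (φ + π / 2 + α) := by
    obtain ⟨t, -, -, ht⟩ := exists_e hn
    -- shift `t - φ - π / 2` into the interval
    obtain ⟨k, hk, -⟩ := existsUnique_add_zsmul_mem_Ioc (show (0 : ℝ) < 2 * π by positivity)
      (t - φ - π / 2) (-(π / 2))
    refine ⟨t - φ - π / 2 + k • (2 * π), hk.1, ?_, ?_⟩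
    · have := hk.2
      linarith
    · rw [ht]
      have h1 : φ + π / 2 + (t - φ - π / 2 + k • (2 * π)) = t + k * (2 * π) := by
        rw [zsmul_eq_mul]; ring
      rw [h1]
      apply ext2
      · rw [e_zero, e_zero, cos_add_int_mul_two_pi]
      · rw [e_one, e_one, sin_add_int_mul_two_pi]
  obtain ⟨α, hα1, hα2, hnα⟩ := hexα
  set β := θ - α with hβ
  -- the basic inequality
  have hbasic : w * R (π / 2 + α) + w * L (3 * π / 2 - β) ≤ inner ℝ (q - p) n := by
    have e1 : w * R (π / 2 + α) = supp C n - inner ℝ p n := by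
      rw [hRdef, hf_mul hw, hnα, ← add_assoc]
    have e2 : w * L (3 * π / 2 - β) = supp D (-n) + inner ℝ q n := by
      rw [hLdef, hf_mul hw]
      have : e (φ + θ + (3 * π / 2 - β)) = -n := by
        rw [hnα, ← e_add_pi]
        congr 1
        rw [hβ]; ring
      rw [this, inner_neg_right]; ring
    obtain ⟨x, hx, -, -, g1, -, -⟩ := hC.width n hn
    obtain ⟨y, hy, -, -, g2, -, -⟩ := hD.width (-n) (by rw [norm_neg, hn])
    rw [e1, e2, supp_eq hx g1, supp_eq hy g2, inner_sub_left, inner_neg_right]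
    have := hsep x hx y hy
    linarith
  set v := q - p with hv
  have hR0 : 0 ≤ R (π / 2 + α) := HC.nonneg _
  have hL0 : 0 ≤ L (3 * π / 2 - β) := HD.nonneg _
  have hRs : -sin α ≤ R (π / 2 + α) := by
    have := HC.cos_le (π / 2 + α)
    rwa [add_comm, cos_add_pi_div_two, add_comm α] at this
  have hLs : sin (α - θ) ≤ L (3 * π / 2 - β) := by
    have h1 := HD.cos_le (3 * π / 2 - β)
    have h2 : cos (3 * π / 2 - β) = sin (α - θ) := by
      rw [show 3 * π / 2 - β = (α - θ + π / 2) + π by rw [hβ]; ring, cos_add_pi,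
        cos_add_pi_div_two, neg_neg]
    rwa [h2] at h1
  -- the range of `α`
  have hα3 : α < θ + π / 2 := by
    rcases hθ.lt_or_eq with hθ0 | hθ0
    · refine angle_range (v := v) (φ := φ) (R := w * R (π / 2 + α)) (L := w * L (3 * π / 2 - β))
        hθ0 hθπ hv1 hv2 hα2 ?_ (by positivity) ?_ (by positivity) (by rw [← hnα]; exact hbasic)
      · intro h
        have : R (π / 2 + α) = 0 := (mul_eq_zero.1 h).resolve_left hw.ne'
        linarith
      · intro h
        have : L (3 * π / 2 - β) = 0 := (mul_eq_zero.1 h).resolve_left hw.ne'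
        linarith
    · have hv0 : v = 0 := by rw [hv, h0 hθ0.symm, sub_self]
      rw [hv0, inner_zero_left] at hbasic
      have r0 : R (π / 2 + α) = 0 := by
        have : w * R (π / 2 + α) = 0 := by nlinarith [mul_nonneg hw.le hR0, mul_nonneg hw.le hL0]
        exact (mul_eq_zero.1 this).resolve_left hw.ne'
      have l0 : L (3 * π / 2 - β) = 0 := by
        have : w * L (3 * π / 2 - β) = 0 := by nlinarith [mul_nonneg hw.le hR0, mul_nonneg hw.le hL0]
        exact (mul_eq_zero.1 this).resolve_left hw.ne'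
      rw [r0] at hRs
      rw [l0, ← hθ0, sub_zero] at hLs
      have hsin : sin α = 0 := by linarith
      by_contra hcon
      push Not at hcon
      rw [← hθ0, zero_add] at hcon
      -- then `α = π`
      have hαπ : α = π := by
        rcases lt_trichotomy α π with h | h | h
        · have := sin_pos_of_pos_of_lt_pi (x := α) (by linarith) h
          linarith
        · exact h
        · have : 0 < sin (α - π) := sin_pos_of_pos_of_lt_pi (by linarith) (by linarith)
          rw [sin_sub_pi] at this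
          linarith
      rw [hαπ, show π / 2 + π = 3 * π / 2 by ring] at r0
      exact HC.pos_right.ne' r0
  have hβ1 : -(π / 2) < β := by linarith
  refine ⟨min α (π / 2), min β (π / 2), lt_min hα1 (by linarith), min_le_right _ _,
    lt_min hβ1 (by linarith), min_le_right _ _, ?_, ?_⟩
  · have := min_le_left α (π / 2)
    have := min_le_left β (π / 2)
    linarith
  refine (add_le_add (cost_cap HC) (cost_cap' HD)).trans ?_
  rw [le_div_iff₀ hw]
  have hcb : ∀ a : ℝ, -(π / 2) < a → a < 0 → 0 < cos a := fun a h1 h2 =>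
    cos_pos_of_mem_Ioo ⟨h1, by linarith⟩
  rcases lt_or_ge α 0 with h1 | h1
  · have h2 : ¬ β < 0 := by
      rw [hβ]; linarith
    have h3 := inner_le_norm_of (v := v) hv1 h1.le hα1 hnα
    have hc := hcb α hα1 h1
    unfold cost
    rw [if_pos h1, if_neg h2]
    have h4 : w * L (3 * π / 2 - β) * cos α ≤ w * L (3 * π / 2 - β) := by
      nlinarith [cos_le_one α, mul_nonneg hw.le hL0]
    have h5 : (R (π / 2 + α) / cos α + L (3 * π / 2 - β)) * w * cos α ≤ ‖v‖ * cos α := by
      have : (R (π / 2 + α) / cos α + L (3 * π / 2 - β)) * w * cos α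
          = w * R (π / 2 + α) + w * L (3 * π / 2 - β) * cos α := by
        field_simp
      rw [this]
      linarith
    exact le_of_mul_le_mul_right h5 hc
  · rcases lt_or_ge β 0 with h2 | h2
    · have h3 := inner_le_norm_of' (v := v) (u := n) (b := β) hv2 h2.le hβ1
        (by rw [hnα]; congr 1; rw [hβ]; ring)
      have hc := hcb β hβ1 h2
      unfold cost
      rw [if_neg (not_lt.2 h1), if_pos h2]
      have h4 : w * R (π / 2 + α) * cos β ≤ w * R (π / 2 + α) := by
        nlinarith [cos_le_one β, mul_nonneg hw.le hR0]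
      have h5 : (R (π / 2 + α) + L (3 * π / 2 - β) / cos β) * w * cos β ≤ ‖v‖ * cos β := by
        have : (R (π / 2 + α) + L (3 * π / 2 - β) / cos β) * w * cos β
            = w * R (π / 2 + α) * cos β + w * L (3 * π / 2 - β) := by
          field_simp
        rw [this]
        linarith
      exact le_of_mul_le_mul_right h5 hc
    · unfold cost
      rw [if_neg (not_lt.2 h1), if_neg (not_lt.2 h2)]
      have h3 := real_inner_le_norm v n
      rw [hn, mul_one] at h3
      linarith

end Pool.Agent.W5h2.Kiss
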