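import Mathlib
import Pool.Agent.W5h2.Kiss.Geom

set_option autoImplicit false

/-!
# The perimeter of a polygon inscribed in a body of constant width
-/

namespace Pool.Agent.W5h2.Kiss

open Real Set MeasureTheory

/-- `x` is the support point of `K` in the direction of angle `t` -/
def IsSp (K : Set E) (x : ℝ → E) : Prop :=
  (∀ t, x t ∈ K) ∧ (∀ t, ∀ z ∈ K, inner ℝ z (e t) ≤ inner ℝ (x t) (e t))

variable {K : Set E} {w : ℝ} {x : ℝ → E}

lemma sp_mono (H : CW K w) (hx : IsSp K x) {c s t : ℝ} (h1 : c - π ≤ s) (h2 : s ≤ t) (h3 : t ≤ c) :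
    inner ℝ (x s) (e c) ≤ inner ℝ (x t) (e c) := by
  rcases h2.eq_or_lt with h | h
  · rw [h]
  have a1 := hx.2 t _ (hx.1 s)
  have a2 := hx.2 s _ (hx.1 t)
  rcases (show t - s ≤ π by linarith).lt_or_eq with h4 | h4
  · have hs : 0 < sin (t - s) := sin_pos_of_pos_of_lt_pi (by linarith) h4
    have hs1 : 0 ≤ sin (c - s) := sin_nonneg_of_nonneg_of_le_pi (by linarith) (by linarith)
    have hs2 : 0 ≤ sin (c - t) := sin_nonneg_of_nonneg_of_le_pi (by linarith) (by linarith)
    have hid : ∀ v : E, sin (t - s) * inner ℝ v (e c) =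
        sin (c - s) * inner ℝ v (e t) - sin (c - t) * inner ℝ v (e s) := by
      intro v
      rw [inner_eq, inner_eq, inner_eq]
      simp only [e_zero, e_one, sin_sub]
      have := sin_sq_add_cos_sq s
      have := sin_sq_add_cos_sq t
      have := sin_sq_add_cos_sq c
      ring
    have b1 := hid (x t)
    have b2 := hid (x s)
    have b3 : sin (t - s) * inner ℝ (x s) (e c) ≤ sin (t - s) * inner ℝ (x t) (e c) := by
      rw [b1, b2]
      nlinarith
    exact le_of_mul_le_mul_left b3 hs
  · have : t = c := by linarith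
    rw [← this]
    exact a1

lemma sp_anti (H : CW K w) (hx : IsSp K x) {c s t : ℝ} (h1 : c ≤ s) (h2 : s ≤ t) (h3 : t ≤ c + π) :
    inner ℝ (x t) (e c) ≤ inner ℝ (x s) (e c) := by
  have := sp_mono H hx (c := c + π) (s := s) (t := t) (by linarith) h2 h3
  rw [e_add_pi, inner_neg_right, inner_neg_right] at this
  linarith

lemma sp_mono' (H : CW K w) (hx : IsSp K x) {c s t : ℝ} (h1 : c + π ≤ s) (h2 : s ≤ t)
    (h3 : t ≤ c + 2 * π) : inner ℝ (x s) (e c) ≤ inner ℝ (x t) (e c) := by
  have := sp_mono H hx (c := c + 2 * π) (s := s) (t := t) (by linarith) h2 h3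
  rwa [e_add_two_pi] at this

/-- the variation function -/
noncomputable def V (x : ℝ → E) (c t : ℝ) : ℝ :=
  inner ℝ (x (min t c)) (e c) - inner ℝ (x (min (max t c) (c + π))) (e c)
    + inner ℝ (x (max t (c + π))) (e c)

lemma V_le (H : CW K w) (hx : IsSp K x) {c a s t : ℝ} (ha : a ≤ c) (ha2 : c ≤ a + π)
    (hs : a ≤ s) (hst : s ≤ t) (ht : t ≤ a + 2 * π) :
    |inner ℝ (x t - x s) (e c)| ≤ V x c t - V x c s := by
  have hpi := pi_pos
  have hid : ∀ t, inner ℝ (x t) (e c) = inner ℝ (x (min t c)) (e c)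
      + inner ℝ (x (min (max t c) (c + π))) (e c) + inner ℝ (x (max t (c + π))) (e c)
      - inner ℝ (x c) (e c) - inner ℝ (x (c + π)) (e c) := by
    intro t
    rcases le_total t c with h | h
    · rw [min_eq_left h, max_eq_right h, min_eq_left (by linarith), max_eq_right (by linarith)]
      ring
    · rcases le_total t (c + π) with h' | h'
      · rw [min_eq_right h, max_eq_left h, min_eq_left h', max_eq_right h']
        ring
      · rw [min_eq_right h, max_eq_left h, min_eq_right h', max_eq_left h']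
        ring
  have d1 : inner ℝ (x (min s c)) (e c) ≤ inner ℝ (x (min t c)) (e c) :=
    sp_mono H hx (by
      rcases min_choice s c with h | h <;> rw [h] <;> linarith)
      (min_le_min_right c hst) (min_le_right _ _)
  have d2 : inner ℝ (x (min (max t c) (c + π))) (e c) ≤
      inner ℝ (x (min (max s c) (c + π))) (e c) :=
    sp_anti H hx (le_min (le_max_right _ _) (by linarith))
      (min_le_min_right _ (max_le_max_right _ hst)) (min_le_right _ _)
  have d3 : inner ℝ (x (max s (c + π))) (e c) ≤ inner ℝ (x (max t (c + π))) (e c) :=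
    sp_mono' H hx (le_max_right _ _) (max_le_max_right _ hst)
      (max_le (by linarith) (by linarith))
  rw [inner_sub_left, hid t, hid s, abs_le]
  unfold V
  constructor <;> linarith

lemma V_total (H : CW K w) (hx : IsSp K x) {c a : ℝ} (ha : a ≤ c) (ha2 : c ≤ a + π)
    (hper : x (a + 2 * π) = x a) : V x c (a + 2 * π) - V x c a ≤ 2 * w := by
  have hpi := pi_pos
  unfold V
  rw [min_eq_right (by linarith : c ≤ a + 2 * π), max_eq_left (by linarith : c ≤ a + 2 * π),
    min_eq_right (by linarith : c + π ≤ a + 2 * π), max_eq_left (by linarith : c + π ≤ a + 2 * π),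
    min_eq_left ha, max_eq_right ha, min_eq_left (by linarith : c ≤ c + π),
    max_eq_right (by linarith : a ≤ c + π), hper]
  have h1 := real_inner_le_norm (x c - x (c + π)) (e c)
  rw [norm_e, mul_one] at h1
  have h2 := H.diam (hx.1 c) (hx.1 (c + π))
  rw [inner_sub_left] at h1
  linarith

lemma integral_abs_inner (v : E) (a : ℝ) :
    ∫ c in a..(a + π), |inner ℝ v (e c)| = 2 * ‖v‖ := by
  by_cases hv : v = 0
  · simp [hv]
  have hn : 0 < ‖v‖ := norm_pos_iff.2 hv
  obtain ⟨τ, -, -, hτ⟩ := exists_e (u := ‖v‖⁻¹ • v)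
    (by rw [norm_smul, norm_inv, norm_norm, inv_mul_cancel₀ hn.ne'])
  have hvτ : v = ‖v‖ • e τ := by
    rw [← hτ, smul_smul, mul_inv_cancel₀ hn.ne', one_smul]
  have h1 : ∀ c, |inner ℝ v (e c)| = ‖v‖ * |cos (c - τ)| := by
    intro c
    conv_lhs => rw [hvτ]
    rw [inner_smul_left, inner_e_e]
    simp only [conj_trivial]
    rw [abs_mul, abs_norm, show τ - c = -(c - τ) by ring, cos_neg]
  simp_rw [h1]
  rw [intervalIntegral.integral_const_mul]
  have hper : Function.Periodic (fun c => |cos (c - τ)|) π := by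
    intro c
    simp only
    rw [show c + π - τ = c - τ + π by ring, cos_add_pi, abs_neg]
  rw [hper.intervalIntegral_add_eq a (τ - π / 2)]
  have h2 : ∫ c in (τ - π / 2)..(τ - π / 2 + π), |cos (c - τ)|
      = ∫ y in (-(π / 2))..(π / 2), |cos y| := by
    rw [intervalIntegral.integral_comp_sub_right (fun y => |cos y|) τ]
    congr 1 <;> ring
  have h3 : ∫ y in (-(π / 2))..(π / 2), |cos y| = ∫ y in (-(π / 2))..(π / 2), cos y := by
    apply intervalIntegral.integral_congr
    intro y hy
    rw [uIcc_of_le (by linarith [pi_pos])] at hy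
    exact abs_of_nonneg (cos_nonneg_of_mem_Icc hy)
  rw [h2, h3, integral_cos, sin_neg, sin_pi_div_two]
  ring

/-- **Perimeter bound.** -/
theorem perimeter (H : CW K w) (hx : IsSp K x) (ψ nx : Fin 8 → ℝ) (a : ℝ) (ha : a = ψ 0)
    (hle : ∀ k, ψ k ≤ nx k) (h1 : ∀ k, a ≤ ψ k) (h2 : ∀ k, nx k ≤ a + 2 * π)
    (htel : ∀ f : ℝ → ℝ, ∑ k, (f (nx k) - f (ψ k)) = f (a + 2 * π) - f a)
    (hper : x (a + 2 * π) = x a) :
    ∑ k, ‖x (nx k) - x (ψ k)‖ ≤ π * w := by
  have hpi := pi_pos
  have key : ∀ c ∈ Icc a (a + π), ∑ k, |inner ℝ (x (nx k) - x (ψ k)) (e c)| ≤ 2 * w := by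
    intro c hc
    calc ∑ k, |inner ℝ (x (nx k) - x (ψ k)) (e c)|
        ≤ ∑ k, (V x c (nx k) - V x c (ψ k)) :=
          Finset.sum_le_sum fun k _ => V_le H hx hc.1 hc.2 (h1 k) (hle k) (h2 k)
      _ = V x c (a + 2 * π) - V x c a := htel _
      _ ≤ 2 * w := V_total H hx hc.1 hc.2 hper
  have hcont : ∀ v : E, Continuous fun c => |inner ℝ v (e c)| := by
    intro v
    have : (fun c => |inner ℝ v (e c)|) = fun c => |v 0 * cos c + v 1 * sin c| := by
      funext c; rw [inner_eq, e_zero, e_one]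
    rw [this]
    fun_prop
  have hint : ∫ c in a..(a + π), ∑ k, |inner ℝ (x (nx k) - x (ψ k)) (e c)|
      = ∑ k, 2 * ‖x (nx k) - x (ψ k)‖ := by
    rw [intervalIntegral.integral_finset_sum]
    · exact Finset.sum_congr rfl fun k _ => integral_abs_inner _ _
    · intro k _
      exact (hcont _).intervalIntegrable _ _
  have hle2 : ∫ c in a..(a + π), ∑ k, |inner ℝ (x (nx k) - x (ψ k)) (e c)|
      ≤ ∫ c in a..(a + π), 2 * w := by
    apply intervalIntegral.integral_mono_on (by linarith)
    · exact (continuous_finset_sum _ fun k _ => hcont _).intervalIntegrable _ _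
    · exact continuous_const.intervalIntegrable _ _
    · exact key
  rw [hint, intervalIntegral.integral_const, ← Finset.mul_sum, smul_eq_mul] at hle2
  linarith

end Pool.Agent.W5h2.Kiss
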