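import Mathlib
import Pool.Agent.W5h2.Kiss.Pair
import Pool.Agent.W5h2.Kiss.Perim

set_option autoImplicit false

/-!
# At most seven bodies of constant width can touch a body of the same constant width
-/

namespace Pool.Agent.W5h2.Kiss

open Real Set

lemma hf_two_pi (C : Set E) (w : ℝ) (p : E) (φ : ℝ) : hf C w p (φ + 2 * π) = hf C w p φ := by
  funext t
  unfold hf
  rw [show φ + 2 * π + t = φ + t + 2 * π by ring, e_add_two_pi]

/-- Eight bodies of constant width `w` cannot touch a body of constant width `w` if all the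
interiors are pairwise disjoint. -/
theorem no_eight {K : Set E} {w : ℝ} (hK : CW K w) (C : Fin 8 → Set E) (hC : ∀ i, CW (C i) w)
    (htouch : ∀ i, (C i ∩ K).Nonempty) (hdisK : ∀ i, interior (C i) ∩ interior K = ∅)
    (hdis : ∀ i j, i ≠ j → interior (C i) ∩ interior (C j) = ∅) : False := by
  classical
  have hpi := pi_pos
  have hw := hK.pos
  -- contact points and normals
  have h1 : ∀ i, ∃ p : E, ∃ φ : ℝ, p ∈ C i ∧ p ∈ K ∧ -π < φ ∧ φ ≤ π ∧
      (∀ y ∈ C i, 0 ≤ inner ℝ (y - p) (e φ)) ∧ (∀ z ∈ K, inner ℝ z (e φ) ≤ inner ℝ p (e φ)) := by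
    intro i
    obtain ⟨p, hp1, hp2⟩ := htouch i
    obtain ⟨n, hn, hsep⟩ := separate hK (hC i) (by rw [inter_comm]; exact hdisK i)
    obtain ⟨φ, hφ1, hφ2, rfl⟩ := exists_e hn
    refine ⟨p, φ, hp1, hp2, hφ1, hφ2, ?_, ?_⟩
    · intro y hy
      rw [inner_sub_left]
      linarith [hsep p hp2 y hy]
    · intro z hz
      exact hsep z hz p hp1
  choose p φ hpC hpK hφ1 hφ2 hφC hφK using h1
  -- support points of `K`
  have h2 : ∀ t : ℝ, ∃ x ∈ K, ∀ z ∈ K, inner ℝ z (e t) ≤ inner ℝ x (e t) := by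
    intro t
    obtain ⟨x, hx, y, hy, g1, -, -⟩ := hK.width (e t) (norm_e t)
    exact ⟨x, hx, g1⟩
  choose x hx1 hx2 using h2
  have hx : IsSp K x := ⟨hx1, hx2⟩
  -- sorting
  let σ := Tuple.sort φ
  have hmono : Monotone (φ ∘ σ) := Tuple.monotone_sort φ
  let ψ : Fin 8 → ℝ := fun k => φ (σ k)
  have hψ : Monotone ψ := hmono
  let nx : Fin 8 → ℝ := fun k => if k = 7 then ψ 0 + 2 * π else ψ (k + 1)
  have hnx_e : ∀ k, e (nx k) = e (ψ (k + 1)) := by
    intro k
    by_cases hk : k = 7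
    · simp only [nx, hk, if_true]
      rw [e_add_two_pi]
      rfl
    · simp only [nx, hk, if_false]
  have hnx_hf : ∀ k, ∀ (D : Set E) (q : E), hf D w q (nx k) = hf D w q (ψ (k + 1)) := by
    intro k D q
    by_cases hk : k = 7
    · simp only [nx, hk, if_true]
      rw [hf_two_pi]
      rfl
    · simp only [nx, hk, if_false]
  have hle : ∀ k, ψ k ≤ nx k := by
    intro k
    by_cases hk : k = 7
    · simp only [nx, hk, if_true]
      have := hφ1 (σ 0)
      have := hφ2 (σ 7)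
      simp only [ψ]
      linarith
    · simp only [nx, hk, if_false]
      apply hψ
      revert hk
      revert k
      decide
  have hlow : ∀ k, ψ 0 ≤ ψ k := fun k => hψ (Fin.zero_le k)
  have hup : ∀ k, nx k ≤ ψ 0 + 2 * π := by
    intro k
    by_cases hk : k = 7
    · simp only [nx, hk, if_true]
      exact le_rfl
    · simp only [nx, hk, if_false]
      have := hφ1 (σ 0)
      have := hφ2 (σ (k + 1))
      simp only [ψ]
      linarith
  have htel : ∀ f : ℝ → ℝ, ∑ k, (f (nx k) - f (ψ k)) = f (ψ 0 + 2 * π) - f (ψ 0) := by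
    intro f
    rw [Fin.sum_univ_eight]
    have e0 : nx 0 = ψ 1 := rfl
    have e1 : nx 1 = ψ 2 := rfl
    have e2 : nx 2 = ψ 3 := rfl
    have e3 : nx 3 = ψ 4 := rfl
    have e4 : nx 4 = ψ 5 := rfl
    have e5 : nx 5 = ψ 6 := rfl
    have e6 : nx 6 = ψ 7 := rfl
    have e7 : nx 7 = ψ 0 + 2 * π := rfl
    rw [e0, e1, e2, e3, e4, e5, e6, e7]
    ring
  -- the points
  have hxper : x (ψ 0 + 2 * π) = x (ψ 0) := by
    apply hK.unique (norm_e (ψ 0)) (hx1 _) (hx1 _) _ (hx2 _)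
    intro z hz
    have := hx2 (ψ 0 + 2 * π) z hz
    rwa [e_add_two_pi] at this
  have hxp : ∀ k, x (ψ k) = p (σ k) := fun k =>
    hK.unique (norm_e (ψ k)) (hx1 _) (hpK _) (hx2 _) (hφK (σ k))
  have hxn : ∀ k, x (nx k) = p (σ (k + 1)) := by
    intro k
    apply hK.unique (norm_e (nx k)) (hx1 _) (hpK _) (hx2 _)
    rw [hnx_e]
    exact hφK (σ (k + 1))
  have hper := perimeter hK hx ψ nx (ψ 0) rfl hle hlow hup htel hxper
  -- pairs
  have h3 : ∀ k : Fin 8, ∃ α β, -(π / 2) < α ∧ α ≤ π / 2 ∧ -(π / 2) < β ∧ β ≤ π / 2 ∧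
      α + β ≤ nx k - ψ k ∧
      cost (hf (C (σ k)) w (p (σ k)) (ψ k) (π / 2 + α)) α +
        cost (hf (C (σ (k + 1))) w (p (σ (k + 1))) (ψ (k + 1)) (3 * π / 2 - β)) β
        ≤ ‖x (nx k) - x (ψ k)‖ / w := by
    intro k
    have hne : σ k ≠ σ (k + 1) := by
      intro h
      have h' : ∀ k : Fin 8, k ≠ k + 1 := by decide
      exact h' k (σ.injective h)
    have hsum : ψ k + (nx k - ψ k) = nx k := by ring
    have := pair (hC (σ k)) (hC (σ (k + 1))) (hdis _ _ hne) (hpC (σ k)) (hpC (σ (k + 1)))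
      (φ := ψ k) (θ := nx k - ψ k) (by linarith [hle k]) (hφC (σ k))
      (by rw [hsum, hnx_e]; exact hφC (σ (k + 1)))
      (by
        rw [inner_sub_left]
        linarith [hφK (σ k) _ (hpK (σ (k + 1)))])
      (by
        rw [hsum, hnx_e, inner_sub_left]
        linarith [hφK (σ (k + 1)) _ (hpK (σ k))])
      (by
        intro h0
        rw [← hxp k, ← hxn k]
        congr 1
        linarith)
    rw [hsum, hnx_hf, ← hxp k, ← hxn k] at this
    rw [← hxp k, ← hxn k]
    exact this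
  choose α β hα1 hα2 hβ1 hβ2 hαβ hcost using h3
  -- the inequality for each body
  have h4 : ∀ k : Fin 8, cA - (α k + β (k - 1)) / 2 ≤
      cost (hf (C (σ k)) w (p (σ k)) (ψ k) (π / 2 + α k)) (α k) +
        cost (hf (C (σ k)) w (p (σ k)) (ψ k) (3 * π / 2 - β (k - 1))) (β (k - 1)) := fun k =>
    ((hC (σ k)).hf_supp (hpC (σ k)) (hφC (σ k))).body (hα1 k) (hα2 k) (hβ1 _) (hβ2 _)
  have h5 := Finset.sum_le_sum fun k (_ : k ∈ Finset.univ) => h4 k
  have h6 := Finset.sum_le_sum fun k (_ : k ∈ Finset.univ) => hcost k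
  rw [Finset.sum_add_distrib] at h5 h6
  have h7 : ∑ k : Fin 8, cost (hf (C (σ (k + 1))) w (p (σ (k + 1))) (ψ (k + 1))
        (3 * π / 2 - β k)) (β k)
      = ∑ k : Fin 8, cost (hf (C (σ k)) w (p (σ k)) (ψ k) (3 * π / 2 - β (k - 1))) (β (k - 1)) := by
    rw [← Equiv.sum_comp (Equiv.addRight (1 : Fin 8)) (fun k => cost (hf (C (σ k)) w (p (σ k))
      (ψ k) (3 * π / 2 - β (k - 1))) (β (k - 1)))]
    apply Finset.sum_congr rfl
    intro k _
    simp only [Equiv.coe_addRight, add_sub_cancel_right]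
  rw [h7] at h6
  have h8 : ∑ k : Fin 8, β (k - 1) = ∑ k : Fin 8, β k := by
    rw [← Equiv.sum_comp (Equiv.addRight (1 : Fin 8)) (fun k => β (k - 1))]
    apply Finset.sum_congr rfl
    intro k _
    simp only [Equiv.coe_addRight, add_sub_cancel_right]
  have h9 : ∑ k : Fin 8, (cA - (α k + β (k - 1)) / 2) = 8 * cA - (∑ k, (α k + β k)) / 2 := by
    rw [Finset.sum_sub_distrib, ← Finset.sum_div, Finset.sum_add_distrib, Finset.sum_add_distrib,
      h8]
    simp
  have h10 : ∑ k, (α k + β k) ≤ 2 * π := by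
    calc ∑ k, (α k + β k) ≤ ∑ k, (nx k - ψ k) := Finset.sum_le_sum fun k _ => hαβ k
      _ = 2 * π := by
        have := htel id
        simp only [id] at this
        rw [this]; ring
  have h11 : ∑ k, ‖x (nx k) - x (ψ k)‖ / w ≤ π := by
    rw [← Finset.sum_div, div_le_iff₀ hw]
    exact hper
  have h12 := lt_cA
  linarith

end Pool.Agent.W5h2.Kiss
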